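import Pool.Agent.Lib.helper10.FPT
import Pool.Agent.Lib.helper10.Kit2

namespace Pool.Agent.Results.MP_918064_lc.Dichotomy

open Pool.Agent.Cx Pool.Agent.Cis

abbrev Mx := List (List Bool)

/-- `G` has an `r`-dominating set of size at most `l` -/
def RDom {V : Type} (r : ℕ) (G : SimpleGraph V) (l : ℕ) : Prop :=
  ∃ S : Finset V, S.card ≤ l ∧ ∀ v, ∃ s ∈ S, G.edist v s ≤ r

/-- `G - X` is a split graph -/
def SplitMod {V : Type} (G : SimpleGraph V) (X : Set V) : Prop :=
  ∃ K I : Set V, K ∪ I = Xᶜ ∧ Disjoint K I ∧ G.IsClique K ∧ G.IsIndepSet I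

/-- `(M, l, X)`: a graph, a bound and a list of distinct vertices that form a split modulator -/
def Valid (z : Mx × ℕ × List ℕ) : Prop :=
  IsGraph z.1 ∧ z.2.2.Nodup ∧ (∀ x ∈ z.2.2, x < z.1.length) ∧ SplitMod (graphOf z.1) {v | v.1 ∈ z.2.2}

section
variable {V : Type} {G : SimpleGraph V}

def Wi (G : SimpleGraph V) : ℕ → V → V → Prop
  | 0, u, v => u = v
  | t + 1, u, v => Wi G t u v ∨ ∃ w, G.Adj u w ∧ Wi G t w v

lemma wi_iff {t : ℕ} {u v : V} : Wi G t u v ↔ G.edist u v ≤ t := by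
  induction t generalizing u with
  | zero => simp [Wi]
  | succ t ih =>
    simp only [Wi, ih]
    constructor
    · rintro (h | ⟨w, a, b⟩)
      · exact h.trans (by simp)
      · exact (G.edist_triangle (v := w)).trans (by
          rw [G.edist_eq_one_iff_adj.2 a, add_comm]; push_cast; gcongr)
    · intro h
      obtain ⟨p, hp⟩ := G.exists_walk_of_edist_ne_top (ne_top_of_le_ne_top (by simp) h)
      cases p with
      | nil => simp
      | cons a p =>
        refine Or.inr ⟨_, a, (G.edist_le p).trans ?_⟩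
        rw [← hp] at h
        simpa using (show p.length + 1 ≤ t + 1 by exact_mod_cast h)

lemma tri {a b : ℕ} {u v w : V} (h : G.edist u v ≤ a) (g : G.edist v w ≤ b) {c : ℕ} (e : a + b ≤ c) :
    G.edist u w ≤ c :=
  G.edist_triangle.trans ((add_le_add h g).trans (by exact_mod_cast e))

lemma one {u v : V} (h : G.Adj u v ∨ u = v) : G.edist u v ≤ (1 : ℕ) := by
  simpa [SimpleGraph.edist_le_one_iff_adj_or_eq] using h

lemma step {u d : V} (h : u ≠ d) (t : ℕ) : G.edist u d ≤ t → ∃ y, G.Adj u y ∧ G.edist y d ≤ (t - 1 : ℕ) := by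
  rw [← wi_iff]
  induction t with
  | zero => exact fun e => absurd e h
  | succ t ih =>
    rintro (a | ⟨y, a, b⟩)
    · exact let ⟨y, a, b⟩ := ih a; ⟨y, a, b.trans (by norm_cast; omega)⟩
    · exact ⟨y, a, wi_iff.1 b⟩

def Big (G : SimpleGraph V) (X : Set V) (v : V) : Prop := v ∉ X ∧ ∃ u ∉ X, G.Adj v u

lemma big {X : Set V} (h : SplitMod G X) {u v : V} (a : Big G X u) (b : Big G X v) :
    G.edist u v ≤ (3 : ℕ) := by
  obtain ⟨K, I, k1, -, k2, k3⟩ := h
  have : ∀ u, Big G X u → ∃ x ∈ K, G.Adj u x ∨ u = x := by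
    rintro u ⟨a, w, b, c⟩
    rcases (k1.ge a : u ∈ K ∨ u ∈ I) with d | d
    · exact ⟨u, d, Or.inr rfl⟩
    · exact ⟨w, (k1.ge b : w ∈ K ∨ w ∈ I).resolve_right fun e => k3 d e c.ne c, Or.inl c⟩
  obtain ⟨x, x1, x2⟩ := this u a
  obtain ⟨y, y1, y2⟩ := this v b
  exact tri (tri (one x2) (one (or_iff_not_imp_right.2 (k2 x1 y1))) le_rfl)
    (one (y2.imp .symm .symm)) le_rfl

/-- vertices that look alike from `X` dominate the same non-isolated vertices -/
lemma swap {X : Set V} (h : SplitMod G X) {r : ℕ} {d e u w : V} (h1 : Big G X d ↔ Big G X e)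
    (h2 : ∀ x ∈ X, ∀ t, t = 0 ∨ t = 1 ∨ t = r + 2 ∨ t = r + 3 → (Wi G t d x ↔ Wi G t e x)) (hw : G.Adj u w)
    (g : Wi G (r + 3) d u) : Wi G (r + 3) e u := by
  simp only [wi_iff] at *
  by_cases c : d ∈ X
  · obtain rfl : e = d := by simpa using (h2 d c 0 (by simp)).1
    exact g
  by_cases c1 : u ∈ X
  · exact (h2 u c1 _ (by simp)).1 g
  have nb : ∀ v ∉ X, ¬ Big G X v → ∀ y, G.Adj v y → y ∈ X := fun v a b y c => by_contra fun d => b ⟨a, y, d, c⟩
  by_cases c2 : d = u
  · subst c2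
    by_cases c3 : Big G X d
    · exact (big h (h1.1 c3) c3).trans (by norm_cast; omega)
    · exact tri ((h2 w (nb d c c3 w hw) 1 (by simp)).1 (one (Or.inl hw))) (one (Or.inl hw.symm)) (by omega)
  by_cases c3 : Big G X u
  · by_cases c4 : Big G X d
    · exact (big h (h1.1 c4) c3).trans (by norm_cast; omega)
    · obtain ⟨y, a, b⟩ := step c2 _ g
      exact tri ((h2 y (nb d c c4 y a) 1 (by simp)).1 (one (Or.inl a))) b (by omega)
  · obtain ⟨y, a, b⟩ := step (Ne.symm c2) _ (G.edist_comm ▸ g)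
    exact tri ((h2 y (nb u c1 c3 y a) (r + 2) (by simp)).1 (G.edist_comm ▸ b)) (one (Or.inl a.symm)) le_rfl

lemma short [Fintype V] [DecidableEq V] [DecidableRel G.Adj] {X : List V} (h : SplitMod G {v | v ∈ X})
    {r l : ℕ} : RDom (r + 3) G l ↔ ∃ w : List V, w.length ≤ X.length + 1 ∧
      w.length + (Finset.univ.filter fun u => ¬ ∃ y, G.Adj u y).card ≤ l ∧
      ∀ u, (∃ y, G.Adj u y) → ∃ d ∈ w, Wi G (r + 3) d u := by
  set Z := Finset.univ.filter fun u => ¬ ∃ y, G.Adj u y
  constructor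
  · rintro ⟨S, s1, s2⟩
    have z : Z ⊆ S := fun u hu => by
      obtain ⟨s, a, b⟩ := s2 u
      by_contra c
      obtain ⟨y, e, -⟩ := step (by rintro rfl; exact c a) _ b
      exact (Finset.mem_filter.1 hu).2 ⟨y, e⟩
    have := Finset.card_sdiff_add_card_eq_card z
    by_cases c : (S \ Z).card ≤ X.length + 1
    · refine ⟨(S \ Z).toList, by simpa, by simp; omega, fun u ⟨y, hu⟩ => ?_⟩
      obtain ⟨s, a, b⟩ := s2 u
      refine ⟨s, ?_, wi_iff.2 (G.edist_comm ▸ b)⟩
      by_cases e : s = u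
      · simp [Z, a, e ▸ a, e]; exact ⟨y, hu⟩
      · obtain ⟨x, e, -⟩ := step e _ (G.edist_comm ▸ b)
        simp [Z, a]; exact ⟨x, e⟩
    · have e : ∀ u y, G.Adj u y → ¬ Big G {v | v ∈ X} u → ∃ d ∈ X, Wi G (r + 3) d u := fun u y a b => by
        by_cases c : u ∈ X
        · exact ⟨u, c, wi_iff.2 (by simp)⟩
        · exact ⟨y, by_contra fun d => b ⟨c, y, d, a⟩, wi_iff.2 ((one (Or.inl a.symm)).trans
            (by norm_cast; omega))⟩
      by_cases d : ∃ x, Big G {v | v ∈ X} x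
      · obtain ⟨x, d⟩ := d
        refine ⟨x :: X, by simp, by simp; omega, fun u ⟨y, hu⟩ => ?_⟩
        by_cases b : Big G {v | v ∈ X} u
        · exact ⟨x, by simp, wi_iff.2 ((big h d b).trans (by norm_cast; omega))⟩
        · exact let ⟨d, a, b⟩ := e u y hu b; ⟨d, by simp [a], b⟩
      · exact ⟨X, by simp, by omega, fun u ⟨y, hu⟩ => e u y hu fun b => d ⟨u, b⟩⟩
  · rintro ⟨w, -, a, b⟩
    refine ⟨w.toFinset ∪ Z, (Finset.card_union_le _ _).trans (by have := w.toFinset_card_le; omega),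
      fun v => ?_⟩
    by_cases c : ∃ y, G.Adj v y
    · obtain ⟨d, d1, d2⟩ := b v c
      exact ⟨d, by simp [d1], G.edist_comm ▸ wi_iff.1 d2⟩
    · exact ⟨v, by simp only [Z, Finset.mem_union, Finset.mem_filter]; simp at c ⊢; tauto, by simp⟩

end

def wi (M : Mx) : ℕ → ℕ → ℕ → Prop
  | 0, u, v => u = v
  | t + 1, u, v => wi M t u v ∨ ∃ w < M.length, ent M u w = true ∧ wi M t w v

lemma pp_wi (t : ℕ) : PP fun z : Mx × ℕ × ℕ => wi z.1 t z.2.1 z.2.2 := by
  induction t with
  | zero => unfold wi; fun_prop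
  | succ t ih => unfold wi; fun_prop

lemma wi_eq {M : Mx} (h : IsGraph M) (t : ℕ) (u v : Fin M.length) : Wi (graphOf M) t u v ↔ wi M t u v := by
  induction t generalizing u with
  | zero => simp [Wi, wi, Fin.ext_iff]
  | succ t ih => simp [Wi, wi, ih, adj_iff h, Fin.exists_iff, and_left_comm]

def bg (M : Mx) (X : List ℕ) (v : ℕ) : Prop := v ∉ X ∧ ∃ u < M.length, u ∉ X ∧ ent M v u = true

open Classical in
noncomputable def sig (r : ℕ) (M : Mx) (X : List ℕ) (v : ℕ) : Bool × List (Bool × Bool × Bool × Bool) :=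
  (decide (bg M X v), X.map fun x => (decide (wi M 0 v x), decide (wi M 1 v x), decide (wi M (r + 2) v x),
    decide (wi M (r + 3) v x)))

noncomputable def reps (r : ℕ) (M : Mx) (X : List ℕ) : List ℕ :=
  (List.range M.length).filter fun v => decide (¬ ∃ u < v, sig r M X u = sig r M X v)

lemma reps_len (r : ℕ) (M : Mx) (X : List ℕ) : (reps r M X).length ≤ 2 * 16 ^ X.length := by
  have n : (reps r M X).Nodup := List.nodup_range.filter _
  rw [← List.toFinset_card_of_nodup n]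
  refine (Finset.card_le_card_of_injOn (t := Finset.univ) (fun v => (((sig r M X v).1,
    ⟨(sig r M X v).2, by simp [sig]⟩) : Bool × List.Vector _ X.length)) (by simp) fun u hu v hv e => ?_).trans
    (by simp [card_vector])
  replace e : sig r M X u = sig r M X v :=
    Prod.ext (congrArg Prod.fst e :) (congrArg (fun x => x.2.1) e :)
  simp [reps] at hu hv
  rcases lt_trichotomy u v with c | c | c
  exacts [absurd e (hv.2 u c), c, absurd e.symm (hu.2 v c)]

lemma exists_rep (r : ℕ) (M : Mx) (X : List ℕ) (v : ℕ) (h : v < M.length) :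
    ∃ u ∈ reps r M X, sig r M X u = sig r M X v := by
  classical
  have e : ∃ u, sig r M X u = sig r M X v := ⟨v, rfl⟩
  refine ⟨Nat.find e, ?_, Nat.find_spec e⟩
  have := Nat.find_min' e (m := v) rfl
  simp only [reps, List.mem_filter, List.mem_range, decide_eq_true_eq, Nat.find_spec e]
  exact ⟨by omega, fun ⟨u, a, b⟩ => Nat.find_min e a b⟩

def alg (r : ℕ) (z : (Mx × ℕ × List ℕ) × ℕ) : Prop :=
  ∃ w ∈ words (reps r z.1.1 z.1.2.2) (z.1.2.2.length + 1) z.2, w.length +
    ((List.range z.1.1.length).countP fun u => decide (¬ ∃ y < z.1.1.length, ent z.1.1 u y = true)) ≤ z.1.2.1 ∧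
    ¬ ∃ u < z.1.1.length, (∃ y < z.1.1.length, ent z.1.1 u y = true) ∧ ¬ ∃ d ∈ w, wi z.1.1 (r + 3) d u

lemma pp_alg (r : ℕ) : PP (alg r) := by
  have a0 := pp_wi 0
  have a1 := pp_wi 1
  have a2 := pp_wi (r + 2)
  have a3 := pp_wi (r + 3)
  have b : PT fun z : Mx × List ℕ × ℕ => sig r z.1 z.2.1 z.2.2 := by
    unfold sig bg
    exact PT.pair (PP.decide (by fun_prop)) (PT.map (PT.pair (PP.decide (by fun_prop)) (PT.pair
      (PP.decide (by fun_prop)) (PT.pair (PP.decide (by fun_prop)) (PP.decide (by fun_prop))))) (by fun_prop))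
  have c : PT fun z : Mx × List ℕ => reps r z.1 z.2 := by
    unfold reps; exact PT.filter (PP.decide (by fun_prop)) (by fun_prop)
  have d : PT fun M : Mx => (List.range M.length).countP fun u =>
      decide (¬ ∃ y < M.length, ent M u y = true) := PT.countP (PP.decide (by fun_prop)) (by fun_prop)
  unfold alg; fun_prop

lemma alg_iff (r : ℕ) {M : Mx} {l m : ℕ} {X : List ℕ} (h : Valid (M, l, X))
    (hm : 2 ^ ((4 * X.length + 2) * (X.length + 1)) ≤ m) : alg r ((M, l, X), m) ↔ RDom (r + 3) (graphOf M) l := by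
  classical
  obtain ⟨g, -, h1, h⟩ := h
  simp only at g h1 h
  lift X to List (Fin M.length) using h1
  have h' : SplitMod (graphOf M) {v | v ∈ X} := by simpa [Fin.val_inj] using h
  have c : ((List.range M.length).countP fun u => decide (¬ ∃ y < M.length, ent M u y = true)) =
      (Finset.univ.filter fun u => ¬ ∃ y, (graphOf M).Adj u y).card := by
    rw [List.countP_eq_length_filter, ← List.toFinset_card_of_nodup (List.nodup_range.filter _),
      ← Finset.card_map Fin.valEmbedding]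
    congr 1; ext; simp [adj_iff g, Fin.exists_iff, Fin.forall_iff, and_comm]
  rw [short h', alg, c]
  simp only [List.length_map]
  constructor
  · rintro ⟨w, a, b, c⟩
    obtain ⟨a1, a2⟩ := words_len _ _ _ w a
    lift w to List (Fin M.length) using fun x hx => by simpa using (List.mem_filter.1 (a2 x hx)).1
    refine ⟨w, by simpa using a1, by simpa using b, fun u ⟨y, e⟩ => ?_⟩
    simpa [wi_eq g] using not_not.1 fun d => c ⟨u, u.2, ⟨y, y.2, (adj_iff g _ _).1 e⟩, d⟩
  · rintro ⟨w, a, b, c⟩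
    choose q q1 q2 using fun v : Fin M.length => exists_rep r M (X.map Fin.val) v v.2
    refine ⟨w.map q, (mem_words ?_).2 _ (by simpa) (by simpa using fun x _ => q1 x), by simpa using b, ?_⟩
    · refine le_trans ?_ hm
      have := reps_len r M (X.map Fin.val)
      have : 0 < 16 ^ X.length := by positivity
      rw [List.length_map] at *
      rw [pow_mul]
      exact Nat.pow_le_pow_left (by rw [pow_add, pow_mul]; norm_num; omega) _
    · rintro ⟨u, hu, ⟨y, hy, e⟩, d⟩
      obtain ⟨x, x1, x2⟩ := c ⟨u, hu⟩ ⟨⟨y, hy⟩, (adj_iff g _ _).2 e⟩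
      have l : q x < M.length := by simpa using (List.mem_filter.1 (q1 x)).1
      have s := q2 x
      simp only [sig, Prod.mk.injEq, List.map_inj_left, decide_eq_decide, List.forall_mem_map] at s
      refine d ⟨q x, List.mem_map_of_mem x1, (wi_eq g _ ⟨_, l⟩ ⟨u, hu⟩).1 (swap h' ?_ ?_
        ((adj_iff g ⟨u, hu⟩ ⟨y, hy⟩).2 e) x2)⟩
      · have : ∀ v : Fin M.length, Big (graphOf M) {v | v ∈ X} v ↔ bg M (X.map Fin.val) v := fun v => by
          simp only [Big, bg, adj_iff g, Set.mem_ofPred_eq, List.mem_map_of_injective Fin.val_injective]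
          exact and_congr_right fun _ => ⟨fun ⟨u, a, b⟩ => ⟨u, u.2, by simpa [Fin.val_inj], b⟩,
            fun ⟨u, a, b, c⟩ => ⟨⟨u, a⟩, fun d => b (List.mem_map_of_mem d), c⟩⟩
        simp only [this, s.1]
      · simp only [wi_eq g]
        rintro v hv t (rfl | rfl | rfl | rfl) <;> simp only [s.2 v hv]

abbrev T := ℕ × ℕ × ℕ

def rel (M : Mx) (p q : T) : Prop :=
  (p.1 = 0 ∧ (q.1 = 1 ∨ q.1 = 2) ∧ p.2.1 = q.2.1) ∨ (p.1 = 4 ∧ q.1 = 4 ∧ p.2.2 ≠ q.2.2) ∨
  (p.1 = 4 ∧ q.1 = 3 ∧ p.2.2 = q.2.2) ∨ (p.1 = 4 ∧ q.1 = 2 ∧ (p.2.2 = q.2.2 ∨ ent M p.2.2 q.2.2 = true))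

def adj (M : Mx) (p q : T) : Prop := rel M p q ∨ rel M q p

instance (M : Mx) : DecidableRel (adj M) := fun _ _ => by unfold adj rel; infer_instance

def ok (n k : ℕ) (p : T) : Prop := (p.1 < 2 ∧ p.2.1 < k ∧ p.2.2 = 0) ∨ (p.1 = 2 ∧ p.2.1 < k ∧ p.2.2 < n) ∨
  ((p.1 = 3 ∨ p.1 = 4) ∧ p.2.1 = 0 ∧ p.2.2 < n)

instance (n k : ℕ) : DecidablePred (ok n k) := fun _ => by unfold ok; infer_instance

lemma core {V : Type} {G : SimpleGraph V} {M : Mx} {k : ℕ} {f : V → T} (g : IsGraph M)
    (h1 : ∀ a c, G.Adj a c ↔ adj M (f a) (f c)) (h2 : ∀ p, (∃ a, f a = p) ↔ ok M.length k p)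
    (h3 : f.Injective) : RDom 1 (graphOf M) k ↔ RDom 2 G k := by
  classical
  have ex : ∀ p, ok M.length k p → ∃ a, f a = p := fun p => (h2 p).2
  simp only [RDom, ← wi_iff, Wi]
  constructor
  · rintro ⟨S, s1, s2⟩
    rcases S.eq_empty_or_nonempty with rfl | ⟨a0, a1⟩
    · choose q hq using fun i : Fin k => ex (0, i, 0) (by simp [ok])
      refine ⟨Finset.univ.image q, Finset.card_image_le.trans (by simp), fun v => ?_⟩
      have := (h2 _).1 ⟨v, rfl⟩
      have n : M.length = 0 := by_contra fun n => by simpa using s2 ⟨0, by omega⟩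
      unfold ok at this
      refine ⟨q ⟨(f v).2.1, by omega⟩, by simp, Or.inl ?_⟩
      by_cases c : (f v).1 = 0
      · exact Or.inl (h3 (by rw [hq]; ext <;> simp <;> omega))
      · exact Or.inr ⟨_, by rw [h1, hq]; simp [adj, rel]; omega, rfl⟩
    · let a := fun i => S.toList.getD i a0
      choose q hq using fun i : Fin k => ex (2, i, a i) (by simp [ok])
      have e : ∀ s ∈ S, ∃ i : Fin k, a i = s := fun s hs => by
        obtain ⟨i, hi, e⟩ := List.getElem_of_mem (Finset.mem_toList.2 hs)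
        exact ⟨⟨i, by simp at hi; omega⟩, by simp only [a, ← e, List.getD_eq_getElem _ _ hi]⟩
      refine ⟨Finset.univ.image q, Finset.card_image_le.trans (by simp), fun v => ?_⟩
      have := (h2 _).1 ⟨v, rfl⟩
      unfold ok at this
      by_cases c : (f v).1 < 3
      · obtain ⟨x, hx⟩ := ex (0, (f v).2.1, 0) (by simp [ok]; omega)
        have b : G.Adj x (q ⟨(f v).2.1, by omega⟩) := by simp [h1, hx, hq, adj, rel]
        refine ⟨q ⟨(f v).2.1, by omega⟩, by simp, ?_⟩
        by_cases d : (f v).1 = 0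
        · exact Or.inl (Or.inr ⟨_, by simp [h1, hq, adj, rel, d], rfl⟩)
        · exact Or.inr ⟨x, by simp [h1, hx, adj, rel]; omega, Or.inr ⟨_, b, rfl⟩⟩
      · obtain ⟨s, b1, b2⟩ := s2 ⟨(f v).2.2, by omega⟩
        obtain ⟨i, rfl⟩ := e s b1
        obtain ⟨x, hx⟩ := ex (4, 0, (f v).2.2) (by simp [ok]; omega)
        have b : G.Adj x (q i) := by simpa [h1, hx, hq, adj, rel, adj_iff g, Fin.ext_iff] using b2
        refine ⟨q i, by simp, ?_⟩
        by_cases d : (f v).1 = 4
        · exact Or.inl (Or.inr ⟨_, by rwa [show v = x from h3 (by rw [hx]; ext <;> simp <;> omega)], rfl⟩)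
        · exact Or.inr ⟨x, by simp [h1, hx, adj, rel]; omega, Or.inr ⟨_, b, rfl⟩⟩
  · rintro ⟨S, s1, s2⟩
    have e1 : ∀ i : Fin k, ∃ s ∈ S, (f s).1 < 3 ∧ (f s).2.1 = i := fun i => by
      obtain ⟨x, hx⟩ := ex (1, i, 0) (by simp [ok])
      obtain ⟨s, a, b⟩ := s2 x
      refine ⟨s, a, ?_⟩
      rcases b with (rfl | ⟨_, b, rfl⟩) | ⟨y, b, rfl | ⟨_, c, rfl⟩⟩
      · simp [hx]
      all_goals simp only [h1, hx, adj, rel] at *; omega
    choose q q1 q2 using e1
    have e2 : ∀ s ∈ S, (f s).1 < 3 := fun s hs => by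
      obtain ⟨i, -, rfl⟩ := Finset.surjOn_of_injOn_of_card_le (s := Finset.univ) (t := S) q
        (fun i _ => q1 i) (fun i _ j _ e => Fin.ext (by rw [← (q2 i).2, e, (q2 j).2])) (by simpa) hs
      exact (q2 i).1
    refine ⟨Finset.univ.filter fun b => ∃ s ∈ S, (f s).2.2 = b, le_trans ?_ ((Finset.card_image_le
      (f := fun s => (f s).2.2)).trans s1), fun b => ?_⟩
    · exact Finset.card_le_card_of_injOn Fin.val (fun b => by simp) Fin.val_injective.injOn
    · obtain ⟨x, hx⟩ := ex (3, 0, b) (by simp [ok])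
      obtain ⟨s, a, c⟩ := s2 x
      have := e2 s a
      have o := (h2 _).1 ⟨s, rfl⟩
      have : (f s).1 = 2 ∧ (b = (f s).2.2 ∨ ent M b (f s).2.2 = true) := by
        rcases c with (rfl | ⟨_, b, rfl⟩) | ⟨y, b, rfl | ⟨_, c, rfl⟩⟩ <;> simp only [h1, hx, adj, rel] at * <;> grind
      exact ⟨⟨(f s).2.2, by unfold ok at o; omega⟩, by simpa using ⟨s, a, rfl⟩, by
        simpa [adj_iff g, Fin.ext_iff] using this.2⟩

def verts (z : Mx × ℕ) : List T := ((List.range z.2).map fun i => (0, i, 0)) ++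
  (List.range 5 ×ˢ List.range (z.2 + 1) ×ˢ List.range (z.1.length + 1)).filter fun p =>
    decide (0 < p.1 ∧ ok z.1.length z.2 p)

def red (z : Mx × ℕ) : Mx × ℕ × List ℕ :=
  (mat (verts z) fun p q => decide (adj z.1 p q), z.2, List.range z.2)

lemma red_pt : PT red := by
  unfold red verts
  refine PT.pair (PT.mat (PT.append (by fun_prop) (PT.filter (PP.decide ?_) (by fun_prop))) (PP.decide ?_))
    (by fun_prop)
  · unfold ok; fun_prop
  · unfold adj rel; fun_prop

theorem result :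
    (∀ r, 3 ≤ r → ∃ P : Mx × ℕ × List ℕ → Prop, InFPT P (fun z => z.2.2.length) ∧
      ∀ z, Valid z → (P z ↔ RDom r (graphOf z.1) z.2.1)) ∧
    ∃ f, PolyTime f ∧ ∀ (M : Mx) (k : ℕ), IsGraph M → ∃ z : Mx × ℕ × List ℕ, f (enc (M, k)) = enc z ∧
      Valid z ∧ z.2.2.length = k ∧ (RDom 1 (graphOf M) k ↔ RDom 2 (graphOf z.1) z.2.1) := by
  classical
  constructor
  · intro r hr
    obtain ⟨r, rfl⟩ := Nat.exists_eq_add_of_le' hr
    refine ⟨fun z => alg r (z, 2 ^ ((4 * z.2.2.length + 2) * (z.2.2.length + 1))),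
      inFPT_of_pad (F := fun z => decide (alg r z)) (j := fun z => (4 * z.2.2.length + 2) * (z.2.2.length + 1))
      (h := fun k => (4 * k + 2) * (k + 1)) (pp_alg r).decide (by fun_prop) (Primrec.nat_mul.comp
        (Primrec.nat_add.comp (Primrec.nat_mul.comp (.const 4) .id) (.const 2)) Primrec.succ).to_comp
      (fun _ => le_rfl) fun _ => decide_eq_true_iff.symm, fun ⟨M, l, X⟩ h => alg_iff r h le_rfl⟩
  obtain ⟨F, a, b⟩ := polyTime_fun red_pt
  refine ⟨F, a, fun M k g => ?_⟩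
  obtain ⟨g', f, h1, h2, h3, h4⟩ := graph_kit (verts (M, k)) (adj M) (fun _ _ => Or.symm)
    (fun p => by simp only [adj, rel]; omega) (List.nodup_append.2 ⟨List.nodup_range.map
      fun _ _ => by simp, (List.nodup_range.product (List.nodup_range.product List.nodup_range)).filter _,
      by simp; grind⟩) (M := (red (M, k)).1) rfl
  have h2' : ∀ p, (∃ a, f a = p) ↔ ok M.length k p := by
    rintro ⟨a, b, c⟩
    simp only [h2, verts, List.mem_append, List.mem_map, List.mem_filter, List.mem_product, List.mem_range,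
      decide_eq_true_eq, Prod.mk.injEq, ok]
    exact ⟨by rintro (⟨_, _⟩ | _) <;> omega, fun h => by
      by_cases a = 0
      · exact Or.inl ⟨b, by omega⟩
      · omega⟩
  have h5 : ∀ a, a.1 < k ↔ (f a).1 = 0 := fun a => by
    have := h4 a
    rw [verts, List.getElem?_append] at this
    split_ifs at this with c <;> simp at c
    · simp [c] at this; simp [c, ← this]
    · have := (List.mem_filter.1 (List.mem_of_getElem? this)).2
      simp at this; omega
  refine ⟨_, b _, ⟨g', List.nodup_range, by simp [red, verts]; omega, {a | (f a).1 = 4},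
    {a | 0 < (f a).1 ∧ (f a).1 < 4}, ?_, by simp [Set.disjoint_left]; omega, fun a x c y e => ?_,
    fun a x c y e => ?_⟩, by simp [red], core g h1 h2' h3⟩
  · ext a
    have := (h2' _).1 ⟨a, rfl⟩
    have e := h5 a
    simp only [ok] at this
    simp only [Set.mem_union, Set.mem_ofPred_eq, Set.mem_compl_iff, show (red (M, k)).2.2 = List.range k from rfl,
      List.mem_range, e]
    omega
  · have := (h2' _).1 ⟨a, rfl⟩
    have := (h2' _).1 ⟨c, rfl⟩
    have : f a ≠ f c := fun h => e (h3 h)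
    simp only [h1, adj, rel, ok, Set.mem_ofPred_eq, ne_eq, Prod.ext_iff] at *
    exact Or.inl (Or.inr (Or.inl (by omega)))
  · simp only [h1, adj, rel, Set.mem_ofPred_eq] at *
    omega

end Pool.Agent.Results.MP_918064_lc.Dichotomy
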